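import Pool.Agent.Q250.PG.Orb

/-!
# MP_a12d4e_al : the conjecture fails for `PGL₂`

For a split group of rank one the spherical building is the discrete set of Borel subgroups.
For `𝒢 = PGL₂` and for `𝒮 = SL₂` this is the projective line `ℙ¹(K)`, an isomorphism of the
quotients is a bijection of the two orbit spaces.

* `SR (𝓞 K) K` is the image of `SL₂(𝓞 K)` in `GL₂(K)`;
* `GR (𝓞 K) K` is the set of `g ∈ GL₂(K)` with `g M₂(𝓞 K) g⁻¹ = M₂(𝓞 K)`, the full preimage in
  `GL₂(K)` of `PGL₂(𝓞 K) = Aut (M₂(𝓞 K))`;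
* `OrbSp Γ` is the orbit space of `Γ` on `ℙ¹(K)`.
-/

namespace Pool.Agent.Results.MP_a12d4e_al.ProjectiveLine

open Pool.Agent.Q250.PG NumberField QuadraticAlgebra
open scoped nonZeroDivisors

/-- the field `ℚ(√-5)` -/
abbrev K5 : Type := QuadraticAlgebra ℚ (-5) 0

instance : Fact (∀ r : ℚ, r ^ 2 ≠ -5 + 0 * r) := ⟨fun r h => by nlinarith [sq_nonneg r]⟩

noncomputable instance : NumberField K5 where
  to_charZero := inferInstance
  to_finiteDimensional := by
    have h : Module.Finite ℚ (QuadraticAlgebra ℚ (-5) 0) := inferInstance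
    convert h

theorem norm_int {x : K5} (hx : IsIntegral ℤ x) :
    (∃ m : ℤ, QuadraticAlgebra.norm x = (m : ℚ)) ∧ ∃ t : ℤ, 2 * x.re = (t : ℚ) := by
  have hs : IsIntegral ℤ (star x) := hx.map (RingHom.toIntAlgHom (starRingEnd K5))
  constructor
  · have h1 : IsIntegral ℤ (x * star x) := hx.mul hs
    rw [← QuadraticAlgebra.algebraMap_norm_eq_mul_star] at h1
    have h2 : IsIntegral ℤ (QuadraticAlgebra.norm x) :=
      (isIntegral_algebraMap_iff (FaithfulSMul.algebraMap_injective ℚ K5)).1 h1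
    obtain ⟨m, hm⟩ := IsIntegrallyClosed.isIntegral_iff.1 h2
    exact ⟨m, by rw [← hm]; simp⟩
  · have h1 : IsIntegral ℤ (x + star x) := hx.add hs
    have e : x + star x = algebraMap ℚ K5 (2 * x.re) := by
      ext
      · simp; ring
      · simp
    rw [e] at h1
    have h2 : IsIntegral ℤ (2 * x.re) :=
      (isIntegral_algebraMap_iff (FaithfulSMul.algebraMap_injective ℚ K5)).1 h1
    obtain ⟨m, hm⟩ := IsIntegrallyClosed.isIntegral_iff.1 h2
    exact ⟨m, by rw [← hm]; simp⟩

theorem norm_eq (x : K5) : QuadraticAlgebra.norm x = x.re ^ 2 + 5 * x.im ^ 2 := by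
  rw [QuadraticAlgebra.norm_def]; ring

theorem norm_ne_two {x : K5} (hx : IsIntegral ℤ x) : QuadraticAlgebra.norm x ≠ 2 := by
  intro h
  obtain ⟨t, ht⟩ := (norm_int hx).2
  rw [norm_eq] at h
  have h1 : (10 * x.im) ^ 2 = 5 * (8 - (t : ℚ) ^ 2) := by
    rw [← ht]; linear_combination 20 * h
  have h2 : t ^ 2 ≤ 8 := by
    have : (0 : ℚ) ≤ 5 * (8 - (t : ℚ) ^ 2) := by rw [← h1]; positivity
    have h3 : (t : ℚ) ^ 2 ≤ 8 := by linarith
    exact_mod_cast h3
  have h3 : t ≤ 2 := by nlinarith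
  have h4 : -2 ≤ t := by nlinarith
  have hsq : ∀ n : ℕ, ¬ IsSquare n → (10 * x.im) ^ 2 ≠ (n : ℚ) := by
    intro n hn h5
    apply hn
    rw [← Rat.isSquare_natCast_iff]
    exact ⟨10 * x.im, by rw [← h5]; ring⟩
  have nsq : ∀ n : ℕ, n ≤ 48 → (∀ r ≤ 6, n ≠ r * r) → ¬ IsSquare n := by
    rintro n hn hall ⟨r, hr⟩
    have h6 : r ≤ 6 := by nlinarith
    exact hall r h6 hr
  have s40 : ¬ IsSquare (40 : ℕ) := nsq 40 (by norm_num) (by decide)
  have s35 : ¬ IsSquare (35 : ℕ) := nsq 35 (by norm_num) (by decide)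
  have s20 : ¬ IsSquare (20 : ℕ) := nsq 20 (by norm_num) (by decide)
  interval_cases t
  · exact hsq 20 s20 (by rw [h1]; norm_num)
  · exact hsq 35 s35 (by rw [h1]; norm_num)
  · exact hsq 40 s40 (by rw [h1]; norm_num)
  · exact hsq 35 s35 (by rw [h1]; norm_num)
  · exact hsq 20 s20 (by rw [h1]; norm_num)

/-- the class number of `ℚ(√-5)` is even -/
theorem not_odd : ¬ Odd (Nat.card (ClassGroup (𝓞 K5))) := by
  intro hodd
  rw [← sq_surj_iff] at hodd
  have hinj : Function.Injective (fun c : ClassGroup (𝓞 K5) => c ^ 2) :=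
    Finite.injective_iff_surjective.2 hodd
  set v : Fin 2 → K5 := ![2, 1 + ω] with hv
  have hv0 : v ≠ 0 := by
    intro h
    have := congrFun h 0
    simp [hv] at this
  have hJ := I_ne (R := 𝓞 K5) hv0
  have hint : ∀ x : K5, IsIntegral ℤ x → x ∈ (1 : FractionalIdeal (𝓞 K5)⁰ K5) := by
    intro x hx
    rw [mem_one']
    exact ⟨⟨x, hx⟩, rfl⟩
  have hint' : ∀ x : K5, x ∈ (1 : FractionalIdeal (𝓞 K5)⁰ K5) → IsIntegral ℤ x := by
    intro x hx
    rw [mem_one'] at hx
    obtain ⟨y, rfl⟩ := hx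
    exact y.2
  have hω2 : (ω : K5) * ω = -5 := by
    rw [QuadraticAlgebra.omega_mul_omega_eq_mk]
    ext <;> simp
  have hω : IsIntegral ℤ (ω : K5) := by
    refine ⟨Polynomial.X ^ 2 + Polynomial.C 5, ?_, ?_⟩
    · exact Polynomial.monic_X_pow_add_C 5 two_ne_zero
    · simp [pow_two, hω2]
  have h2 : IsIntegral ℤ (2 : K5) := by
    have := isIntegral_algebraMap (R := ℤ) (A := K5) (x := 2)
    simpa using this
  -- the square of the ideal is `(2)`
  have hsq : I (𝓞 K5) v * I (𝓞 K5) v = FractionalIdeal.spanSingleton _ (2 : K5) := by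
    apply le_antisymm
    · have hle : ∀ x : K5, IsIntegral ℤ x → 2 * x ∈ FractionalIdeal.spanSingleton (𝓞 K5)⁰ (2 : K5) := by
        intro x hx
        rw [FractionalIdeal.mem_spanSingleton]
        exact ⟨⟨x, hx⟩, (mul_comm x 2 : x * 2 = 2 * x)⟩
      unfold I
      rw [add_mul, mul_add, mul_add]
      simp only [FractionalIdeal.spanSingleton_mul_spanSingleton, ← FractionalIdeal.sup_eq_add,
        sup_le_iff, FractionalIdeal.spanSingleton_le_iff_mem]
      simp only [hv, Matrix.cons_val_zero, Matrix.cons_val_one]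
      refine ⟨⟨?_, ?_⟩, ?_, ?_⟩
      · exact hle 2 h2
      · exact hle (1 + ω) (isIntegral_one.add hω)
      · rw [mul_comm]; exact hle (1 + ω) (isIntegral_one.add hω)
      · have : ((1 : K5) + ω) * (1 + ω) = 2 * (ω - 2) := by
          linear_combination hω2
        rw [this]
        exact hle (ω - 2) (hω.sub h2)
    · rw [FractionalIdeal.spanSingleton_le_iff_mem]
      have m0 := mem0 (R := 𝓞 K5) v
      have m1 := mem1 (R := 𝓞 K5) v
      have e0 : v 0 = 2 := rfl
      have e1 : v 1 = 1 + ω := rfl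
      rw [e0] at m0
      rw [e1] at m1
      have c1 := FractionalIdeal.mul_mem_mul m0 m1
      have c2 := FractionalIdeal.mul_mem_mul m1 m1
      have c3 := FractionalIdeal.mul_mem_mul m0 m0
      have e : (2 : K5) = 2 * (1 + ω) - (1 + ω) * (1 + ω) - 2 * 2 := by
        linear_combination hω2
      rw [e]
      exact (FractionalIdeal.mem_coe (I := I (𝓞 K5) v * I (𝓞 K5) v)).1 (Submodule.sub_mem _
        (Submodule.sub_mem _ ((FractionalIdeal.mem_coe (I := I (𝓞 K5) v * I (𝓞 K5) v)).2 c1)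
          ((FractionalIdeal.mem_coe (I := I (𝓞 K5) v * I (𝓞 K5) v)).2 c2))
        ((FractionalIdeal.mem_coe (I := I (𝓞 K5) v * I (𝓞 K5) v)).2 c3))
  -- hence the ideal is principal
  have hone : ClassGroup.mk K5 (Units.mk0 (I (𝓞 K5) v) hJ) = 1 := by
    apply hinj
    show _ ^ 2 = (1 : ClassGroup (𝓞 K5)) ^ 2
    rw [one_pow, ← map_pow]
    have e1 : (Units.mk0 (I (𝓞 K5) v) hJ) ^ 2
        = Units.mk0 (I (𝓞 K5) v ^ 2) (pow_ne_zero 2 hJ) := by
      ext1; simp
    rw [e1, mk_eq_one]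
    exact ⟨2, two_ne_zero, by rw [pow_two, hsq]⟩
  rw [mk_eq_one] at hone
  obtain ⟨d, hd0, hd⟩ := hone
  rw [hd, FractionalIdeal.spanSingleton_mul_spanSingleton] at hsq
  have hdJ : d ∈ I (𝓞 K5) v := by rw [hd]; exact FractionalIdeal.mem_spanSingleton_self _ _
  have hdint : IsIntegral ℤ d := by
    apply hint'
    have : I (𝓞 K5) v ≤ 1 := by
      rw [I_le]
      exact ⟨hint _ h2, hint _ (isIntegral_one.add hω)⟩
    exact this hdJ
  obtain ⟨a, ha⟩ := (FractionalIdeal.mem_spanSingleton _).1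
    (show d * d ∈ FractionalIdeal.spanSingleton (𝓞 K5)⁰ (2 : K5) by
      rw [← hsq]; exact FractionalIdeal.mem_spanSingleton_self _ _)
  obtain ⟨b, hb⟩ := (FractionalIdeal.mem_spanSingleton _).1
    (show (2 : K5) ∈ FractionalIdeal.spanSingleton (𝓞 K5)⁰ (d * d) by
      rw [hsq]; exact FractionalIdeal.mem_spanSingleton_self _ _)
  rw [Algebra.smul_def] at ha hb
  obtain ⟨n, hn⟩ := (norm_int hdint).1
  obtain ⟨p, hp⟩ := (norm_int a.2).1
  obtain ⟨q, hq⟩ := (norm_int b.2).1
  have hnorm2 : QuadraticAlgebra.norm (2 : K5) = 4 := by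
    have : (2 : K5) = ((2 : ℕ) : K5) := by norm_num
    rw [this, QuadraticAlgebra.norm_natCast]; norm_num
  have ha' : (p : ℚ) * 4 = n * n := by
    have := congrArg QuadraticAlgebra.norm ha
    rw [map_mul, map_mul, hnorm2, hn] at this
    rw [← hp]; exact this
  have hb' : (q : ℚ) * (n * n) = 4 := by
    have := congrArg QuadraticAlgebra.norm hb
    rw [map_mul, map_mul, hnorm2, hn] at this
    rw [← hq]; exact this
  have ha'' : p * 4 = n * n := by exact_mod_cast ha'
  have hb'' : q * (n * n) = 4 := by exact_mod_cast hb'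
  have hn0 : 0 ≤ n := by
    have : (0 : ℚ) ≤ n := by rw [← hn, norm_eq]; positivity
    exact_mod_cast this
  have hpq : q * p = 1 := by
    have h4 : 4 * (q * p) = 4 := by
      calc 4 * (q * p) = q * (p * 4) := by ring
        _ = q * (n * n) := by rw [ha'']
        _ = 4 := hb''
    omega
  have hp1 : p = 1 := by
    have hp0 : 0 ≤ p := by nlinarith
    rcases Int.isUnit_iff.1 (IsUnit.of_mul_eq_one q (by rw [mul_comm]; exact hpq) : IsUnit p) with h | h
    · exact h
    · omega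
  have hn2 : n = 2 := by
    rw [hp1] at ha''
    nlinarith
  exact norm_ne_two hdint (by rw [hn, hn2]; norm_num)

/-- For every number field `K`, the quotients of the buildings of `PGL₂(K)` by `PGL₂(𝓞 K)` and of
`SL₂(K)` by `SL₂(𝓞 K)` are in bijection if and only if the class number of `K` is odd. For
`K = ℚ(√-5)` there is no such bijection. -/
theorem result :
    (∀ (K : Type) [Field K] [NumberField K],
      Nonempty (OrbSp (GR (𝓞 K) K) ≃ OrbSp (SR (𝓞 K) K)) ↔ Odd (NumberField.classNumber K)) ∧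
    (∃ (K : Type) (_ : Field K) (_ : NumberField K),
      IsEmpty (OrbSp (GR (𝓞 K) K) ≃ OrbSp (SR (𝓞 K) K))) := by
  have key : ∀ (K : Type) [Field K] [NumberField K],
      Nonempty (OrbSp (GR (𝓞 K) K) ≃ OrbSp (SR (𝓞 K) K)) ↔ Odd (NumberField.classNumber K) := by
    intro K _ _
    rw [main_iff]
    unfold NumberField.classNumber
    rw [Nat.card_eq_fintype_card]
  refine ⟨key, K5, inferInstance, inferInstance, ?_⟩
  rw [← not_nonempty_iff, main_iff]
  exact not_odd

end Pool.Agent.Results.MP_a12d4e_al.ProjectiveLine
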